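import Pool.Agent.Helper53.AE.GoalsB

/-!
# Packet AE-GLB (MP_8130e1_an): the sum of the pieces
-/

set_option autoImplicit false

open scoped ComplexOrder Topology
open Filter TopologicalSpace

namespace Pool.Agent.Helper79.AE

open Pool.Agent.Helper53.AE

section basic

variable {M : Type} [CStarAlgebra M] {f X : ℕ → M}

/-- the terms of the double sum -/
def KK (f X : ℕ → M) (w : M) (m n : ℕ) : M := f m * (star (X m) * w * X n) * f n

/-- the terms outside the diagonal -/
def OO (f X : ℕ → M) (w : M) (n : ℕ) : M :=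
  ∑ m ∈ Finset.range n, (KK f X w m n + KK f X w n m)

/-- the partial sums -/
def VV (f X : ℕ → M) (N : ℕ) : M := ∑ n ∈ Finset.range N, X n * f n

lemma star_VV (hf : ∀ n, star (f n) = f n) (N : ℕ) :
    star (VV f X N) = ∑ n ∈ Finset.range N, f n * star (X n) := by
  unfold VV
  rw [star_sum]
  refine Finset.sum_congr rfl fun n _ => ?_
  rw [star_mul, hf]

lemma expand (hf : ∀ n, star (f n) = f n) (w : M) (N : ℕ) :
    star (VV f X N) * w * VV f X N =
      ∑ n ∈ Finset.range N, KK f X w n n + ∑ n ∈ Finset.range N, OO f X w n := by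
  induction N with
  | zero => simp [VV]
  | succ N ih =>
    have h1 : VV f X (N + 1) = VV f X N + X N * f N := Finset.sum_range_succ _ _
    have h2 : star (VV f X N) * w * (X N * f N) = ∑ m ∈ Finset.range N, KK f X w m N := by
      rw [star_VV hf, Finset.sum_mul, Finset.sum_mul]
      refine Finset.sum_congr rfl fun m _ => ?_
      unfold KK
      simp only [mul_assoc]
    have h3 : f N * star (X N) * w * VV f X N = ∑ m ∈ Finset.range N, KK f X w N m := by
      unfold VV
      rw [Finset.mul_sum]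
      refine Finset.sum_congr rfl fun m _ => ?_
      unfold KK
      simp only [mul_assoc]
    have h4 : OO f X w N = (∑ m ∈ Finset.range N, KK f X w m N) +
        ∑ m ∈ Finset.range N, KK f X w N m := Finset.sum_add_distrib
    have h5 : f N * star (X N) * w * (X N * f N) = KK f X w N N := by
      unfold KK
      simp only [mul_assoc]
    rw [h1, star_add, star_mul, hf, Finset.sum_range_succ, Finset.sum_range_succ, add_mul, add_mul,
      mul_add, mul_add, ih, h2, h3, h4, h5]
    abel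

lemma KK_norm (hf1 : ∀ n, ‖f n‖ ≤ 1) (w : M) (m n : ℕ) :
    ‖KK f X w m n‖ ≤ ‖star (X m) * w * X n‖ := by
  unfold KK
  calc ‖f m * (star (X m) * w * X n) * f n‖ ≤ ‖f m * (star (X m) * w * X n)‖ * ‖f n‖ :=
        norm_mul_le _ _
    _ ≤ ‖f m * (star (X m) * w * X n)‖ := mul_le_of_le_one_right (norm_nonneg _) (hf1 n)
    _ ≤ ‖f m‖ * ‖star (X m) * w * X n‖ := norm_mul_le _ _
    _ ≤ ‖star (X m) * w * X n‖ := mul_le_of_le_one_left (norm_nonneg _) (hf1 m)

lemma OO_norm (hf1 : ∀ n, ‖f n‖ ≤ 1) (w : M) (n : ℕ) {e : ℝ}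
    (h1 : ∀ m < n, ‖star (X n) * w * X m‖ ≤ e)
    (h2 : ∀ m < n, ‖star (X n) * star w * X m‖ ≤ e) : ‖OO f X w n‖ ≤ 2 * n * e := by
  unfold OO
  calc ‖∑ m ∈ Finset.range n, (KK f X w m n + KK f X w n m)‖
      ≤ ∑ m ∈ Finset.range n, (e + e) := by
        refine norm_sum_le_of_le _ fun m hm => ?_
        have hm' := Finset.mem_range.1 hm
        refine (norm_add_le _ _).trans (add_le_add ?_ ?_)
        · refine (KK_norm hf1 w m n).trans ?_
          have h3 := h2 m hm'
          rw [← norm_star] at h3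
          simpa [star_mul, mul_assoc] using h3
        · exact (KK_norm hf1 w n m).trans (h1 m hm')
    _ = 2 * n * e := by
        rw [Finset.sum_const, Finset.card_range, nsmul_eq_mul]; ring

lemma num (n : ℕ) : 2 * (n : ℝ) * (1 / 16) ^ (n + 1) ≤ (1 / 8) ^ (n + 1) := by
  have h1 : (n : ℝ) ≤ 2 ^ n := by
    exact_mod_cast Nat.lt_two_pow_self.le
  have h2 : ((1 : ℝ) / 8) ^ (n + 1) = 2 ^ (n + 1) * (1 / 16) ^ (n + 1) := by
    rw [← mul_pow]; norm_num
  rw [h2]
  apply mul_le_mul_of_nonneg_right _ (by positivity)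
  rw [pow_succ]; linarith

lemma hasSum_g : HasSum (fun n : ℕ => ((1 : ℝ) / 8) ^ (n + 1)) (1 / 7) := by
  have h := (hasSum_geometric_of_lt_one (r := (1 : ℝ) / 8) (by norm_num) (by norm_num)).mul_left
    (1 / 8)
  have e : (1 : ℝ) / 8 * (1 - 1 / 8)⁻¹ = 1 / 7 := by norm_num
  rw [e] at h
  simpa only [pow_succ'] using h

lemma pj_norm {P : M} (h : Pj P) : ‖P‖ ≤ 1 := by
  have h1 : ‖P‖ * ‖P‖ = ‖P‖ := by
    rw [← CStarRing.norm_star_mul_self, h.1, h.2]
  nlinarith [norm_nonneg P]

/-- a bounded convergent nonnegative series has small blocks -/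
lemma Ico_small {g : ℕ → ℝ} {c : ℝ} (hg : HasSum g c) {δ : ℝ} (hδ : 0 < δ) :
    ∃ N0, ∀ N' ≥ N0, ∀ N ≥ N', ∑ n ∈ Finset.Ico N' N, g n < δ := by
  have h1 : CauchySeq fun N => ∑ n ∈ Finset.range N, g n := hg.tendsto_sum_nat.cauchySeq
  obtain ⟨N0, h2⟩ := Metric.cauchySeq_iff.1 h1 δ hδ
  refine ⟨N0, fun N' hN' N hN => ?_⟩
  have h3 := h2 N (le_trans hN' hN) N' hN'
  rw [Real.dist_eq] at h3
  rw [Finset.sum_Ico_eq_sub _ hN]
  exact (abs_lt.1 h3).2

lemma VV_sub {N0 N : ℕ} (h : N0 ≤ N) : VV f X N - VV f X N0 = ∑ n ∈ Finset.Ico N0 N, X n * f n := by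
  unfold VV
  rw [Finset.sum_Ico_eq_sub _ h]

end basic

section main

variable {M : Type} [CStarAlgebra M] {D : NonUnitalStarSubalgebra ℂ M}

/-- limits of series in `D` -/
lemma tsum_mem (hD : Idl D) {u : ℕ → M} (hu : ∀ n, u n ∈ D) (hs : Summable u) :
    ∑' n, u n ∈ D :=
  hD.1.mem_of_tendsto hs.hasSum.tendsto_sum_nat (Eventually.of_forall fun _ =>
    sum_mem fun n _ => hu n)

lemma KK_mem (hD : Idl D) {f X : ℕ → M} (hf : ∀ n, f n ∈ D) (w : M) (m n : ℕ) :
    KK f X w m n ∈ D := (hD.2 _ _ (hf n)).1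

lemma OO_mem (hD : Idl D) {f X : ℕ → M} (hf : ∀ n, f n ∈ D) (w : M) (n : ℕ) :
    OO f X w n ∈ D :=
  sum_mem fun m _ => add_mem (KK_mem hD hf w m n) (KK_mem hD hf w n m)

/-- summability from a bound for large indices -/
lemma summable_of_bound {u : ℕ → M} (j : ℕ) {g : ℕ → ℝ} (hg : Summable g)
    (h : ∀ n, j < n → ‖u n‖ ≤ g n) : Summable u := by
  apply Summable.of_norm_bounded_eventually_nat hg
  filter_upwards [eventually_gt_atTop j] with n hn
  exact h n hn

/-- from the limits on `D` to an equality -/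
lemma ess_eq (hE : Env M D) {a b : M} (h : ∀ d ∈ D, a * d = b * d) : a = b := by
  rw [← sub_eq_zero]
  apply hE.ess
  intro d hd
  rw [sub_mul, h d hd, sub_self]

/-- passing to the limit in `star V * w * V * a` -/
lemma lim_sandwich (hD : Idl D) {f X : ℕ → M} {V : M} {C : ℝ} (hC : ∀ n, ‖VV f X n‖ ≤ C)
    (h1 : ∀ d ∈ D, Tendsto (fun n => VV f X n * d) atTop (𝓝 (V * d)))
    (h2 : ∀ d ∈ D, Tendsto (fun n => d * VV f X n) atTop (𝓝 (d * V))) (w : M) {a : M}
    (ha : a ∈ D) :
    Tendsto (fun n => star (VV f X n) * w * VV f X n * a) atTop (𝓝 (star V * w * V * a)) := by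
  have h3 : ∀ d ∈ D, Tendsto (fun n => star (VV f X n) * d) atTop (𝓝 (star V * d)) := by
    intro d hd
    have h4 := (h2 (star d) (star_mem hd)).star
    simpa [star_mul] using h4
  have h5 : w * (V * a) ∈ D := (hD.2 w _ ((hD.2 V a ha).1)).1
  have h6 := h3 _ h5
  have h7 : Tendsto (fun n => star (VV f X n) * w * (VV f X n * a - V * a)) atTop (𝓝 0) := by
    rw [tendsto_zero_iff_norm_tendsto_zero]
    have h8 : Tendsto (fun n => C * ‖w‖ * ‖VV f X n * a - V * a‖) atTop (𝓝 0) := by
      have h9 : Tendsto (fun n => VV f X n * a - V * a) atTop (𝓝 0) := by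
        have := (h1 a ha).sub_const (V * a)
        simpa using this
      have h10 := (h9.norm).const_mul (C * ‖w‖)
      simpa using h10
    refine squeeze_zero (fun n => norm_nonneg _) (fun n => ?_) h8
    have hC' := hC n
    calc ‖star (VV f X n) * w * (VV f X n * a - V * a)‖
        ≤ ‖star (VV f X n)‖ * ‖w‖ * ‖VV f X n * a - V * a‖ :=
          (norm_mul_le _ _).trans (mul_le_mul_of_nonneg_right (norm_mul_le _ _) (norm_nonneg _))
      _ ≤ C * ‖w‖ * ‖VV f X n * a - V * a‖ := by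
          rw [norm_star]
          gcongr
  have h11 := h7.add h6
  rw [zero_add] at h11
  have e1 : (fun n => star (VV f X n) * w * (VV f X n * a - V * a) +
      star (VV f X n) * (w * (V * a))) = fun n => star (VV f X n) * w * VV f X n * a := by
    funext n
    rw [mul_sub]
    simp only [mul_assoc]
    abel
  have e2 : star V * (w * (V * a)) = star V * w * V * a := by simp only [mul_assoc]
  rw [e1, e2] at h11
  exact h11

end main

section blocks

variable {M : Type} [CStarAlgebra M] {f X : ℕ → M}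

/-- the block of the sum from `N'` to `N` against the sum up to `N'` -/
lemma block_norm (hfs : ∀ n, star (f n) = f n) (hf1 : ∀ n, ‖f n‖ ≤ 1)
    (hX : ∀ n, ∀ m < n, ‖star (X n) * X m‖ ≤ (1 / 16) ^ (n + 1)) {N' N : ℕ} (h : N' ≤ N) :
    ‖star (VV f X N - VV f X N') * VV f X N'‖ ≤ ∑ n ∈ Finset.Ico N' N, ((1 : ℝ) / 8) ^ (n + 1) := by
  rw [VV_sub h, star_sum, Finset.sum_mul]
  refine norm_sum_le_of_le _ fun n hn => ?_
  have hn' : N' ≤ n := (Finset.mem_Ico.1 hn).1
  rw [star_mul, hfs]
  unfold VV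
  rw [Finset.mul_sum]
  calc ‖∑ m ∈ Finset.range N', f n * star (X n) * (X m * f m)‖
      ≤ ∑ m ∈ Finset.range N', (1 / 16) ^ (n + 1) := by
        refine norm_sum_le_of_le _ fun m hm => ?_
        have hm' := Finset.mem_range.1 hm
        have h1 := KK_norm (f := f) (X := X) hf1 1 n m
        unfold KK at h1
        have h2 := hX n m (lt_of_lt_of_le hm' hn')
        rw [mul_one] at h1
        have h3 : f n * star (X n) * (X m * f m) = f n * (star (X n) * X m) * f m := by
          simp only [mul_assoc]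
        rw [h3]
        exact h1.trans h2
    _ = N' * (1 / 16) ^ (n + 1) := by
        rw [Finset.sum_const, Finset.card_range, nsmul_eq_mul]
    _ ≤ (1 / 8) ^ (n + 1) := by
        have h1 := num n
        have h2 : (N' : ℝ) ≤ n := by exact_mod_cast hn'
        have h3 : (0 : ℝ) ≤ (1 / 16) ^ (n + 1) := by positivity
        have h4 : (0 : ℝ) ≤ N' := by positivity
        nlinarith

/-- `V N a` is a Cauchy sequence -/
lemma cauchy_left (hfs : ∀ n, star (f n) = f n) (hf1 : ∀ n, ‖f n‖ ≤ 1)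
    (hX : ∀ n, ∀ m < n, ‖star (X n) * X m‖ ≤ (1 / 16) ^ (n + 1)) {a : M}
    (hQ : CauchySeq fun N => star (VV f X N) * VV f X N * a) :
    CauchySeq fun N => VV f X N * a := by
  rw [Metric.cauchySeq_iff']
  intro ε hε
  set δ : ℝ := ε ^ 2 / (1 + ‖a‖ * (1 + 2 * ‖a‖)) with hδ
  have hδ0 : 0 < δ := by positivity
  obtain ⟨N1, hN1⟩ := Metric.cauchySeq_iff.1 hQ δ hδ0
  obtain ⟨N2, hN2⟩ := Ico_small hasSum_g hδ0
  refine ⟨max N1 N2, fun N hN => ?_⟩
  set N0 := max N1 N2 with hN0
  have k1 := hN1 N (le_trans (le_max_left _ _) hN) N0 (le_max_left _ _)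
  rw [dist_eq_norm] at k1
  have k2 := hN2 N0 (le_max_right _ _) N hN
  have k3 := block_norm hfs hf1 hX hN
  set e := star (VV f X N - VV f X N0) * VV f X N0 with he
  have hW : star (VV f X N - VV f X N0) * (VV f X N - VV f X N0) =
      (star (VV f X N) * VV f X N - star (VV f X N0) * VV f X N0) - (e + star e) := by
    rw [he]
    simp only [star_sub, star_mul, star_star, sub_mul, mul_sub]
    abel
  have hWa : star (VV f X N - VV f X N0) * (VV f X N - VV f X N0) * a =
      (star (VV f X N) * VV f X N * a - star (VV f X N0) * VV f X N0 * a) -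
        (e * a + star e * a) := by
    rw [hW, sub_mul, sub_mul, add_mul]
  have k4 : ‖e * a + star e * a‖ ≤ 2 * δ * ‖a‖ := by
    have k5 : ‖e‖ ≤ δ := k3.trans k2.le
    calc ‖e * a + star e * a‖ ≤ ‖e‖ * ‖a‖ + ‖star e‖ * ‖a‖ :=
          (norm_add_le _ _).trans (add_le_add (norm_mul_le _ _) (norm_mul_le _ _))
      _ = 2 * ‖e‖ * ‖a‖ := by rw [norm_star]; ring
      _ ≤ 2 * δ * ‖a‖ := by gcongr
  have k6 : ‖star (VV f X N - VV f X N0) * (VV f X N - VV f X N0) * a‖ ≤ δ + 2 * δ * ‖a‖ := by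
    rw [hWa]
    exact (norm_sub_le _ _).trans (add_le_add k1.le k4)
  have k7 : ‖(VV f X N - VV f X N0) * a‖ ^ 2 < ε ^ 2 := by
    have k8 : ‖(VV f X N - VV f X N0) * a‖ ^ 2 =
        ‖star a * (star (VV f X N - VV f X N0) * (VV f X N - VV f X N0) * a)‖ := by
      rw [sq, ← CStarRing.norm_star_mul_self, star_mul]
      simp only [mul_assoc]
    rw [k8]
    have k9 : δ * (1 + ‖a‖ * (1 + 2 * ‖a‖)) = ε ^ 2 := by
      rw [hδ]; field_simp
    have k10 : ‖star a * (star (VV f X N - VV f X N0) * (VV f X N - VV f X N0) * a)‖ ≤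
        ‖a‖ * (δ + 2 * δ * ‖a‖) := by
      refine (norm_mul_le _ _).trans ?_
      rw [norm_star]
      exact mul_le_mul_of_nonneg_left k6 (norm_nonneg _)
    nlinarith
  rw [dist_eq_norm, ← sub_mul]
  exact lt_of_pow_lt_pow_left₀ 2 hε.le k7

/-- `a V N` is a Cauchy sequence -/
lemma cauchy_right (hf1 : ∀ n, ‖f n‖ ≤ 1) (hV : ∀ n, ‖VV f X n‖ ≤ 2) {a : M} {d : ℕ → M}
    (hd : ∀ ε : ℝ, 0 < ε → ∃ j, ‖star a - d j‖ < ε)
    (hX : ∀ n, ∀ j < n, ‖star (X n) * d j‖ ≤ (1 / 16) ^ (n + 1)) :
    CauchySeq fun N => a * VV f X N := by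
  rw [Metric.cauchySeq_iff']
  intro ε hε
  obtain ⟨j, hj⟩ := hd (ε / 8) (by positivity)
  obtain ⟨N1, hN1⟩ := Ico_small hasSum_g (show 0 < ε / 2 by positivity)
  refine ⟨max (j + 1) N1, fun N hN => ?_⟩
  set N0 := max (j + 1) N1 with hN0
  have hj0 : j + 1 ≤ N0 := le_max_left _ _
  have k1 := hN1 N0 (le_max_right _ _) N hN
  have k2 : ‖a - star (d j)‖ < ε / 8 := by
    rw [← norm_star]
    simpa using hj
  have k3 : ‖VV f X N - VV f X N0‖ ≤ 4 :=
    (norm_sub_le _ _).trans (by linarith [hV N, hV N0])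
  have k4 : ‖star (d j) * (VV f X N - VV f X N0)‖ ≤
      ∑ n ∈ Finset.Ico N0 N, ((1 : ℝ) / 8) ^ (n + 1) := by
    rw [VV_sub hN, Finset.mul_sum]
    refine norm_sum_le_of_le _ fun n hn => ?_
    have hn' : N0 ≤ n := (Finset.mem_Ico.1 hn).1
    have h1 := hX n j (by omega)
    rw [← norm_star] at h1
    have h2 : star (star (X n) * d j) = star (d j) * X n := by simp
    rw [h2] at h1
    calc ‖star (d j) * (X n * f n)‖ = ‖(star (d j) * X n) * f n‖ := by rw [mul_assoc]
      _ ≤ ‖star (d j) * X n‖ * ‖f n‖ := norm_mul_le _ _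
      _ ≤ ‖star (d j) * X n‖ := mul_le_of_le_one_right (norm_nonneg _) (hf1 n)
      _ ≤ (1 / 16) ^ (n + 1) := h1
      _ ≤ (1 / 8) ^ (n + 1) := pow_le_pow_left₀ (by norm_num) (by norm_num) _
  have k5 : a * VV f X N - a * VV f X N0 = (a - star (d j)) * (VV f X N - VV f X N0) +
      star (d j) * (VV f X N - VV f X N0) := by
    rw [sub_mul, mul_sub]; abel
  rw [dist_eq_norm, k5]
  have k6 : ‖(a - star (d j)) * (VV f X N - VV f X N0)‖ ≤ ε / 8 * 4 :=
    (norm_mul_le _ _).trans (mul_le_mul k2.le k3 (norm_nonneg _) (by positivity))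
  refine lt_of_le_of_lt (norm_add_le _ _) ?_
  linarith

end blocks

theorem t : S_GLB := by
  intro M _ D hE f P y x z C d X hd hdense hf hSlim hSnorm hz hc hX
  have hD := hE.idl
  have hfD : ∀ n, f n ∈ D := fun n => (hf n).1
  have hfs : ∀ n, star (f n) = f n := fun n => (hf n).2.1
  have hf1 : ∀ n, ‖f n‖ ≤ 1 := fun n => (hf n).2.2.1
  have hPf : ∀ n, P n * f n = f n := fun n => (hf n).2.2.2.1
  have hfP : ∀ n, f n * P n = f n := by
    intro n
    have h1 := congrArg star (hPf n)
    rwa [star_mul, hfs, ((hf n).2.2.2.2).1] at h1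
  have hO1 : ∀ n, ‖OO f X 1 n‖ ≤ (1 / 8) ^ (n + 1) := by
    intro n
    refine (OO_norm hf1 1 n (e := (1 / 16) ^ (n + 1)) ?_ ?_).trans (num n)
    · intro m hm
      rw [mul_one]
      exact ((hX n).2.2.2.1 m hm).le
    · intro m hm
      rw [star_one, mul_one]
      exact ((hX n).2.2.2.1 m hm).le
  have hKK1 : ∀ n, KK f X 1 n n = f n * f n := by
    intro n
    unfold KK
    rw [mul_one, (hX n).2.1, hfP]
  have hVV : ∀ N, star (VV f X N) * VV f X N =
      ∑ i ∈ Finset.range N, f i * f i + ∑ n ∈ Finset.range N, OO f X 1 n := by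
    intro N
    have h1 := expand (X := X) hfs 1 N
    rw [mul_one] at h1
    rw [h1]
    congr 1
    exact Finset.sum_congr rfl fun n _ => hKK1 n
  have hsum1 : Summable (OO f X 1) := Summable.of_norm_bounded hasSum_g.summable hO1
  have hhD : ∑' n, OO f X 1 n ∈ D := tsum_mem hD (OO_mem hD hfD 1) hsum1
  have hhn : ‖∑' n, OO f X 1 n‖ ≤ 1 / 7 := tsum_of_norm_bounded hasSum_g hO1
  have hHn : ∀ N, ‖∑ n ∈ Finset.range N, OO f X 1 n‖ ≤ 1 / 7 := fun N =>
    (norm_sum_le_of_le _ fun n _ => hO1 n).trans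
      (sum_le_hasSum _ (fun n _ => by positivity) hasSum_g)
  have hHlim := hsum1.hasSum.tendsto_sum_nat
  have hVn : ∀ N, ‖VV f X N‖ ≤ 2 := by
    intro N
    have h1 : ‖VV f X N‖ * ‖VV f X N‖ ≤ 1 + 1 / 7 := by
      rw [← CStarRing.norm_star_mul_self, hVV]
      exact (norm_add_le _ _).trans (add_le_add (hSnorm N) (hHn N))
    nlinarith [norm_nonneg (VV f X N)]
  have hQ : ∀ a ∈ D, Tendsto (fun N => star (VV f X N) * VV f X N * a) atTop
      (𝓝 (a + (∑' n, OO f X 1 n) * a)) := by
    intro a ha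
    have h1 := (hSlim a ha).add (hHlim.mul_const a)
    refine h1.congr fun N => ?_
    rw [hVV, add_mul]
  have hCa : ∀ a ∈ D, CauchySeq fun N => VV f X N * a := fun a ha =>
    cauchy_left hfs hf1 (fun n m hm => ((hX n).2.2.2.1 m hm).le) (hQ a ha).cauchySeq
  have hCb : ∀ a ∈ D, CauchySeq fun N => a * VV f X N := fun a ha =>
    cauchy_right hf1 hVn (fun ε hε => hdense (star a) (star_mem ha) ε hε)
      (fun n j hj => ((hX n).2.2.2.2.2 j hj).le)
  obtain ⟨V, hV⟩ := hE.strict (VV f X) 2 hVn hCa hCb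
  have hV1 := fun d hd => (hV d hd).1
  have hV2 := fun d hd => (hV d hd).2
  refine ⟨V, ∑' n, OO f X 1 n, hhD, ?_, by linarith, ?_⟩
  · apply ess_eq hE
    intro a ha
    have h1 := lim_sandwich hD hVn hV1 hV2 1 ha
    simp only [mul_one] at h1
    rw [add_mul, one_mul]
    exact tendsto_nhds_unique h1 (hQ a ha)
  · intro j
    set u : ℕ → M := fun n => (KK f X (y j) n n - f n * f n * x j) + OO f X (y j) n with hu
    have huD : ∀ n, u n ∈ D := fun n => add_mem (sub_mem (KK_mem hD hfD _ _ _)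
      ((hD.2 (x j) _ (mul_mem (hfD n) (hfD n))).2)) (OO_mem hD hfD _ _)
    have hub : ∀ n, j < n → ‖u n‖ ≤
        ((1 / 8) ^ (n + 1) + 2 * C j * (1 / 2) ^ n) + (1 / 8) ^ (n + 1) := by
      intro n hn
      refine (norm_add_le _ _).trans (add_le_add ?_ ?_)
      · have h1 : KK f X (y j) n n - f n * f n * x j =
            f n * (star (X n) * y j * X n - P n * z n j * P n) * f n +
              f n * (z n j - x j) * f n - f n * (f n * x j - x j * f n) := by
          have h2 : f n * (P n * z n j * P n) * f n = f n * z n j * f n := by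
            calc f n * (P n * z n j * P n) * f n = (f n * P n) * z n j * (P n * f n) := by
                  simp only [mul_assoc]
              _ = f n * z n j * f n := by rw [hfP, hPf]
          unfold KK
          rw [mul_sub (f n) (star (X n) * y j * X n), sub_mul (f n * (star (X n) * y j * X n)), h2,
            mul_sub (f n) (z n j), sub_mul (f n * z n j), mul_sub (f n) (f n * x j)]
          simp only [mul_assoc]
          abel
        rw [h1]
        have h3 : ‖f n * (star (X n) * y j * X n - P n * z n j * P n) * f n‖ ≤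
            (1 / 16) ^ (n + 1) := by
          calc _ ≤ ‖f n * (star (X n) * y j * X n - P n * z n j * P n)‖ * ‖f n‖ :=
                norm_mul_le _ _
            _ ≤ ‖f n * (star (X n) * y j * X n - P n * z n j * P n)‖ :=
                mul_le_of_le_one_right (norm_nonneg _) (hf1 n)
            _ ≤ ‖f n‖ * ‖star (X n) * y j * X n - P n * z n j * P n‖ := norm_mul_le _ _
            _ ≤ ‖star (X n) * y j * X n - P n * z n j * P n‖ :=
                mul_le_of_le_one_left (norm_nonneg _) (hf1 n)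
            _ ≤ (1 / 16) ^ (n + 1) := ((hX n).2.2.1 j hn).le
        have h4 := hz j n hn
        have h5 : ‖f n * (f n * x j - x j * f n)‖ ≤ C j * (1 / 2) ^ n :=
          ((norm_mul_le _ _).trans (mul_le_of_le_one_left (norm_nonneg _) (hf1 n))).trans
            (hc j n hn)
        have h6 : ((1 : ℝ) / 16) ^ (n + 1) ≤ (1 / 8) ^ (n + 1) :=
          pow_le_pow_left₀ (by norm_num) (by norm_num) _
        refine (norm_sub_le _ _).trans ((add_le_add (norm_add_le _ _) le_rfl).trans ?_)
        linarith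
      · refine (OO_norm hf1 (y j) n (e := (1 / 16) ^ (n + 1)) ?_ ?_).trans (num n)
        · intro m hm
          exact ((hX n).2.2.2.2.1 j hn m hm).1.le
        · intro m hm
          exact ((hX n).2.2.2.2.1 j hn m hm).2.le
    have hg : Summable fun n : ℕ =>
        (((1 : ℝ) / 8) ^ (n + 1) + 2 * C j * (1 / 2) ^ n) + (1 / 8) ^ (n + 1) :=
      (hasSum_g.summable.add ((summable_geometric_of_lt_one (by norm_num)
        (by norm_num)).mul_left _)).add hasSum_g.summable
    have hus : Summable u := summable_of_bound j hg hub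
    have hR : ∀ N, star (VV f X N) * y j * VV f X N =
        (∑ i ∈ Finset.range N, f i * f i) * x j + ∑ n ∈ Finset.range N, u n := by
      intro N
      rw [expand hfs, hu, Finset.sum_add_distrib, Finset.sum_sub_distrib, Finset.sum_mul]
      abel
    have hlim : ∀ a ∈ D, Tendsto (fun N => star (VV f X N) * y j * VV f X N * a) atTop
        (𝓝 ((x j + ∑' n, u n) * a)) := by
      intro a ha
      have h1 := (hSlim (x j * a) (hD.2 _ _ ha).1).add (hus.hasSum.tendsto_sum_nat.mul_const a)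
      rw [add_mul]
      refine h1.congr fun N => ?_
      rw [hR, add_mul]
      simp only [mul_assoc]
    have hfin : star V * y j * V = x j + ∑' n, u n := by
      apply ess_eq hE
      intro a ha
      exact tendsto_nhds_unique (lim_sandwich hD hVn hV1 hV2 (y j) ha) (hlim a ha)
    rw [hfin, add_sub_cancel_left]
    exact tsum_mem hD huD hus

end Pool.Agent.Helper79.AE
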